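import Pool.Agent.Results.MP_ecd12e_nt.GenericLinearImages

/-!
# Montgomery's large value conjecture on almost all linear images, for all large `N` at once

Let `X_0, X_1, …` be independent and uniformly distributed on `[1, 2]`. For every `N` let `W_N` be a set of at most `N ^ A`
integer vectors of length `d_N` with coordinates at most `B_N`, let `s_N` be arbitrary real shifts and let `Λ_N` be a number
such that `Λ_N ≥ N ^ (L (B_N + 1))` for large `N`, for all `L`. Almost surely, for all `ε > 0`, for all large `N`, ALL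
coefficients `|b_n| ≤ 1` and ALL real `σ`: at most `(1 + |W_N| / N) N ^ (2 - 2σ + ε)` of the points
`Λ_N ∑_i a_i X_i + s_N(a)`, `a ∈ W_N`, satisfy `|D| > N ^ σ`.
-/

set_option autoImplicit false

namespace Pool.Agent.Results.MP_ecd12e_nt.AlmostAllImages

open Finset MeasureTheory ProbabilityTheory Filter

open scoped ENNReal

open Pool.Agent.Results.MP_ecd12e_nt.GenericLinearImages (point D)

universe u

/-- `X_0, X_1, …` are independent and uniformly distributed on `[1, 2]` -/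
def Uniform {Ω : Type u} [MeasurableSpace Ω] (P : Measure Ω) (X : ℕ → Ω → ℝ) : Prop :=
  (∀ i, Measurable (X i)) ∧ iIndepFun X P ∧ ∀ i, P.map (X i) = volume.restrict (Set.Icc 1 2)

/-- For ALL `|b_n| ≤ 1` and ALL real `σ`, with `D(t)` the sum of `b_n n ^ (it)` over `N ≤ n ≤ 2N`: at most
`K (1 + |W| / N) N ^ (2 - 2σ + ε)` of the points `x·a + s_a`, `a ∈ W`, satisfy `|D| > N ^ σ`, and if `σ ≥ 1/2 + ε` and all
of them satisfy it, then `|W| ≤ K N ^ (2 - 2σ + ε)`. -/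
def Good {d : ℕ} (W : Finset (Fin d → ℤ)) (s : (Fin d → ℤ) → ℝ) (N : ℕ) (K ε : ℝ) (x : Fin d → ℝ) : Prop :=
  ∀ b : ℕ → ℂ, (∀ n, ‖b n‖ ≤ 1) → ∀ σ : ℝ,
    ((W.filter (fun a => (N : ℝ) ^ σ < ‖D (Icc N (2 * N)) b (point s x a)‖)).card : ℝ) ≤
      K * (1 + W.card / N) * (N : ℝ) ^ (2 - 2 * σ + ε) ∧
    (1 / 2 + ε ≤ σ → (∀ a ∈ W, (N : ℝ) ^ σ < ‖D (Icc N (2 * N)) b (point s x a)‖) →
      (W.card : ℝ) ≤ K * (N : ℝ) ^ (2 - 2 * σ + ε))

lemma ae_mem {Ω : Type u} [MeasurableSpace Ω] {P : Measure Ω} {X : ℕ → Ω → ℝ} (hX : Uniform P X) :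
    ∀ᵐ ω ∂P, ∀ i, X i ω ∈ Set.Icc (1 : ℝ) 2 := by
  rw [ae_all_iff]
  intro i
  have h : ∀ᵐ x ∂(P.map (X i)), x ∈ Set.Icc (1 : ℝ) 2 := by
    rw [hX.2.2 i]
    exact ae_restrict_mem measurableSet_Icc
  exact ae_of_ae_map (hX.1 i).aemeasurable h

lemma law {Ω : Type u} [MeasurableSpace Ω] {P : Measure Ω} [IsProbabilityMeasure P] {X : ℕ → Ω → ℝ}
    (hX : Uniform P X) (d : ℕ) : P.map (fun ω (i : Fin d) => X i ω) ≤ volume := by
  have h1 := (iIndepFun_iff_map_fun_eq_pi_map (f := fun (i : Fin d) ω => X (i : ℕ) ω) (μ := P)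
    (fun i : Fin d => (hX.1 i).aemeasurable)).1 (hX.2.1.precomp Fin.val_injective)
  rw [h1]
  simp only [hX.2.2]
  rw [← Measure.restrict_pi_pi, ← volume_pi]
  exact Measure.restrict_le_self

lemma prob {Ω : Type u} [MeasurableSpace Ω] {P : Measure Ω} [IsProbabilityMeasure P] {X : ℕ → Ω → ℝ}
    (hX : Uniform P X) (d : ℕ) {Λ : ℝ} (hΛ : 0 < Λ) {E : Set (Fin d → ℝ)} (hE : MeasurableSet E) {c : ℝ} (hc : 0 ≤ c)
    (hv : volume E ≤ ENNReal.ofReal (c * Λ ^ d)) :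
    P {ω | (fun i : Fin d => Λ * X i ω) ∈ E} ≤ ENNReal.ofReal c := by
  have hm : Measurable (fun ω (i : Fin d) => X (i : ℕ) ω) := measurable_pi_lambda _ fun i => hX.1 i
  have hmS : MeasurableSet ((fun x : Fin d → ℝ => Λ • x) ⁻¹' E) := (measurable_const_smul Λ) hE
  have e1 : {ω | (fun i : Fin d => Λ * X i ω) ∈ E} =
      (fun ω (i : Fin d) => X (i : ℕ) ω) ⁻¹' ((fun x : Fin d → ℝ => Λ • x) ⁻¹' E) := rfl
  rw [e1, ← Measure.map_apply hm hmS]
  refine (law hX d _).trans ?_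
  rw [Measure.addHaar_preimage_smul volume hΛ.ne', Module.finrank_fintype_fun_eq_card, Fintype.card_fin,
    abs_of_nonneg (by positivity)]
  calc ENNReal.ofReal ((Λ ^ d)⁻¹) * volume E ≤ ENNReal.ofReal ((Λ ^ d)⁻¹) * ENNReal.ofReal (c * Λ ^ d) := by gcongr
    _ = ENNReal.ofReal ((Λ ^ d)⁻¹ * (c * Λ ^ d)) := (ENNReal.ofReal_mul (by positivity)).symm
    _ = ENNReal.ofReal c := by
        congr 1
        field_simp

lemma good_mono {d : ℕ} {W : Finset (Fin d → ℤ)} {s : (Fin d → ℤ) → ℝ} {N : ℕ} {K ε ε' : ℝ} {x : Fin d → ℝ} (hN : 1 ≤ N)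
    (hε : ε' ≤ ε) (hK : K ≤ (N : ℝ) ^ (ε - ε')) (h : Good W s N K ε' x) : Good W s N 1 ε x := by
  have hN0 : (0 : ℝ) < N := by exact_mod_cast hN
  have key : ∀ σ : ℝ, K * (N : ℝ) ^ (2 - 2 * σ + ε') ≤ (N : ℝ) ^ (2 - 2 * σ + ε) := by
    intro σ
    calc K * (N : ℝ) ^ (2 - 2 * σ + ε') ≤ (N : ℝ) ^ (ε - ε') * (N : ℝ) ^ (2 - 2 * σ + ε') :=
          mul_le_mul_of_nonneg_right hK (by positivity)
      _ = _ := by
          rw [← Real.rpow_add hN0]
          congr 1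
          ring
  intro b hb σ
  obtain ⟨h1, h2⟩ := h b hb σ
  refine ⟨h1.trans ?_, fun hσ hl => (h2 (by linarith) hl).trans ?_⟩
  · have h3 := mul_le_mul_of_nonneg_left (key σ) (show (0 : ℝ) ≤ 1 + W.card / N by positivity)
    linarith
  · rw [one_mul]
    exact key σ

/-- **Theorem.** `X_0, X_1, …` are independent and uniform on `[1, 2]`. (1) For `ε > 0` and `A ≥ 0` there are `k` and `K ≥ 1`
with the following property. For `N ∈ ℕ` let `W_N` be a set of integer vectors of length `d_N`, `s_N` arbitrary real shifts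
and `Λ_N` real, such that for all large `N` the coordinates are at most `B_N`, `|W_N| ≤ N ^ A` and
`Λ_N ≥ K (2N) ^ (k (B_N + 1 + A))`. Almost surely, for all large `N` the vector `(Λ_N X_i)_(i < d_N)` is `Good`, with the
constant `K`. (2) Suppose that for all large `N` the coordinates of the elements of `W_N` are at most `B_N` and
`|W_N| ≤ N ^ A`, and that `Λ_N ≥ N ^ (L (B_N + 1))` for all real `L` and all large `N`. Almost surely, for ALL `ε > 0` and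
all large `N` the vector `(Λ_N X_i)_(i < d_N)` is `Good`, with the constant `1`. -/
theorem result :
    (∀ ε A : ℝ, 0 < ε → 0 ≤ A → ∃ (k : ℕ) (K : ℝ), 1 ≤ K ∧
      ∀ {Ω : Type u} [MeasurableSpace Ω] (P : Measure Ω) [IsProbabilityMeasure P] (X : ℕ → Ω → ℝ), Uniform P X →
      ∀ (d B : ℕ → ℕ) (W : ∀ N, Finset (Fin (d N) → ℤ)) (s : ∀ N, (Fin (d N) → ℤ) → ℝ) (Λ : ℕ → ℝ),
        (∀ᶠ N : ℕ in atTop, (∀ a ∈ W N, ∀ i, |a i| ≤ B N) ∧ ((W N).card : ℝ) ≤ (N : ℝ) ^ A ∧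
          K * (2 * N : ℝ) ^ ((k : ℝ) * (B N + 1 + A)) ≤ Λ N) →
        ∀ᵐ ω ∂P, ∀ᶠ N : ℕ in atTop, Good (W N) (s N) N K ε (fun i => Λ N * X i ω)) ∧
    (∀ {Ω : Type u} [MeasurableSpace Ω] (P : Measure Ω) [IsProbabilityMeasure P] (X : ℕ → Ω → ℝ), Uniform P X →
      ∀ (A : ℝ) (d B : ℕ → ℕ) (W : ∀ N, Finset (Fin (d N) → ℤ)) (s : ∀ N, (Fin (d N) → ℤ) → ℝ) (Λ : ℕ → ℝ), 0 ≤ A →
        (∀ᶠ N : ℕ in atTop, (∀ a ∈ W N, ∀ i, |a i| ≤ B N) ∧ ((W N).card : ℝ) ≤ (N : ℝ) ^ A) →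
        (∀ L : ℝ, ∀ᶠ N : ℕ in atTop, (N : ℝ) ^ (L * (B N + 1)) ≤ Λ N) →
        ∀ᵐ ω ∂P, ∀ ε : ℝ, 0 < ε → ∀ᶠ N : ℕ in atTop, Good (W N) (s N) N 1 ε (fun i => Λ N * X i ω)) := by
  have part1 : ∀ ε A : ℝ, 0 < ε → 0 ≤ A → ∃ (k : ℕ) (K : ℝ), 1 ≤ K ∧
      ∀ {Ω : Type u} [MeasurableSpace Ω] (P : Measure Ω) [IsProbabilityMeasure P] (X : ℕ → Ω → ℝ), Uniform P X →
      ∀ (d B : ℕ → ℕ) (W : ∀ N, Finset (Fin (d N) → ℤ)) (s : ∀ N, (Fin (d N) → ℤ) → ℝ) (Λ : ℕ → ℝ),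
        (∀ᶠ N : ℕ in atTop, (∀ a ∈ W N, ∀ i, |a i| ≤ B N) ∧ ((W N).card : ℝ) ≤ (N : ℝ) ^ A ∧
          K * (2 * N : ℝ) ^ ((k : ℝ) * (B N + 1 + A)) ≤ Λ N) →
        ∀ᵐ ω ∂P, ∀ᶠ N : ℕ in atTop, Good (W N) (s N) N K ε (fun i => Λ N * X i ω) := by
    intro ε A hε hA
    obtain ⟨k, K, hK, h⟩ := (Pool.Agent.Results.MP_ecd12e_nt.GenericLinearImages.result ε A 2 hε hA (by norm_num)).2
    refine ⟨k, K, hK, ?_⟩
    intro Ω _ P _ X hX d B W s Λ hW
    obtain ⟨N₀, hN₀⟩ := eventually_atTop.1 hW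
    have hex : ∀ N : ℕ, ∃ E : Set (Fin (d N) → ℝ), max N₀ 1 ≤ N →
        (MeasurableSet E ∧ volume E ≤ ENNReal.ofReal ((N : ℝ) ^ (-2 : ℝ) * Λ N ^ d N) ∧
          ∀ x : Fin (d N) → ℝ, (∀ i, x i ∈ Set.Icc (Λ N) (2 * Λ N)) → x ∉ E → Good (W N) (s N) N K ε x) := by
      intro N
      by_cases hN : max N₀ 1 ≤ N
      · obtain ⟨h1, h2, h3⟩ := hN₀ N ((le_max_left _ _).trans hN)
        obtain ⟨E, hE1, hE2, hE3⟩ := h N ((le_max_right _ _).trans hN) (d N) (B N) (W N) (s N) (Λ N) h1 h2 h3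
        exact ⟨E, fun _ => ⟨hE1, hE2, hE3⟩⟩
      · exact ⟨∅, fun h => absurd h hN⟩
    choose E hE using hex
    set V : ℕ → Set Ω := fun N => if max N₀ 1 ≤ N then {ω | (fun i : Fin (d N) => Λ N * X i ω) ∈ E N} else ∅ with hV
    have hΛ : ∀ N, max N₀ 1 ≤ N → 0 < Λ N := by
      intro N hN
      have h3 := (hN₀ N ((le_max_left _ _).trans hN)).2.2
      have hN1 : 1 ≤ N := (le_max_right _ _).trans hN
      have hNr : (0 : ℝ) < N := by exact_mod_cast hN1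
      refine lt_of_lt_of_le ?_ h3
      positivity
    have hvol : ∀ N, P (V N) ≤ ENNReal.ofReal (((N : ℝ) ^ 2)⁻¹) := by
      intro N
      rw [hV]
      simp only
      split_ifs with hN
      · obtain ⟨h1, h2, _⟩ := hE N hN
        refine (prob hX (d N) (hΛ N hN) h1 (by positivity) h2).trans (le_of_eq ?_)
        congr 1
        rw [Real.rpow_neg (Nat.cast_nonneg _)]
        norm_num
      · simp
    have hsum : ∑' N, P (V N) ≠ ∞ := by
      have h1 : Summable (fun N : ℕ => ((N : ℝ) ^ 2)⁻¹) := Real.summable_nat_pow_inv.2 (by norm_num)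
      have h2 : ∑' N : ℕ, ENNReal.ofReal (((N : ℝ) ^ 2)⁻¹) ≠ ∞ := by
        rw [← ENNReal.ofReal_tsum_of_nonneg (fun N => by positivity) h1]
        exact ENNReal.ofReal_ne_top
      exact ne_top_of_le_ne_top h2 (ENNReal.tsum_le_tsum hvol)
    filter_upwards [ae_eventually_notMem hsum, ae_mem hX] with ω hω hmem
    filter_upwards [hω, eventually_ge_atTop (max N₀ 1)] with N hN hN1
    refine (hE N hN1).2.2 _ (fun i => ?_) (fun hcon => hN ?_)
    · have h1 := hmem i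
      have h2 := hΛ N hN1
      constructor
      · nlinarith [h1.1]
      · nlinarith [h1.2]
    · rw [hV]
      simp only [hN1, if_true]
      exact hcon
  refine ⟨part1, ?_⟩
  intro Ω _ P _ X hX A d B W s Λ hA hW hΛ
  have hall : ∀ᵐ ω ∂P, ∀ q : ℕ, ∃ K : ℝ, ∀ᶠ N : ℕ in atTop,
      Good (W N) (s N) N K (1 / ((q : ℝ) + 1)) (fun i => Λ N * X i ω) := by
    rw [ae_all_iff]
    intro q
    obtain ⟨k, K, hK, h⟩ := part1 (1 / ((q : ℝ) + 1)) A (by positivity) hA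
    have h1 := h P X hX d B W s Λ (by
      obtain ⟨K', hK'⟩ := exists_nat_ge K
      filter_upwards [hW, hΛ (1 + 2 * (k * (1 + A))), eventually_ge_atTop (max K' 2)] with N g1 g2 g3
      refine ⟨g1.1, g1.2, le_trans ?_ g2⟩
      have hN2 : (2 : ℝ) ≤ N := by exact_mod_cast (le_max_right _ _).trans g3
      have hNK : K ≤ N := hK'.trans (by exact_mod_cast (le_max_left _ _).trans g3)
      have hN0 : (0 : ℝ) < N := by linarith
      have hB : (0 : ℝ) ≤ B N := Nat.cast_nonneg _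
      have hk : (0 : ℝ) ≤ k := Nat.cast_nonneg _
      have e1 : (2 * N : ℝ) ^ ((k : ℝ) * (B N + 1 + A)) ≤ (N : ℝ) ^ (2 * (k * (1 + A)) * (B N + 1)) := by
        calc (2 * N : ℝ) ^ ((k : ℝ) * (B N + 1 + A)) ≤ ((N : ℝ) ^ (2 : ℝ)) ^ ((k : ℝ) * (B N + 1 + A)) := by
              apply Real.rpow_le_rpow (by positivity) _ (by positivity)
              rw [Real.rpow_two]
              nlinarith
          _ = (N : ℝ) ^ (2 * ((k : ℝ) * (B N + 1 + A))) := by rw [← Real.rpow_mul hN0.le]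
          _ ≤ _ := by
              apply Real.rpow_le_rpow_of_exponent_le (by linarith)
              have : (B N : ℝ) + 1 + A ≤ (1 + A) * (B N + 1) := by nlinarith
              nlinarith [mul_le_mul_of_nonneg_left this hk]
      calc K * (2 * N : ℝ) ^ ((k : ℝ) * (B N + 1 + A))
          ≤ (N : ℝ) ^ ((B N : ℝ) + 1) * (N : ℝ) ^ (2 * (k * (1 + A)) * (B N + 1)) := by
            apply mul_le_mul _ e1 (by positivity) (by positivity)
            refine hNK.trans ?_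
            calc (N : ℝ) = (N : ℝ) ^ (1 : ℝ) := (Real.rpow_one _).symm
              _ ≤ _ := Real.rpow_le_rpow_of_exponent_le (by linarith) (by linarith)
        _ = (N : ℝ) ^ ((1 + 2 * (k * (1 + A))) * (B N + 1)) := by
            rw [← Real.rpow_add hN0]
            congr 1
            ring)
    filter_upwards [h1] with ω hω
    exact ⟨K, hω⟩
  filter_upwards [hall] with ω hω ε hε
  obtain ⟨q, hq⟩ := exists_nat_one_div_lt hε
  obtain ⟨K, hK⟩ := hω q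
  have hlarge : ∀ᶠ N : ℕ in atTop, K ≤ (N : ℝ) ^ (ε - 1 / ((q : ℝ) + 1)) :=
    ((tendsto_rpow_atTop (show 0 < ε - 1 / ((q : ℝ) + 1) by linarith)).comp
      tendsto_natCast_atTop_atTop).eventually_ge_atTop _
  filter_upwards [hK, hlarge, eventually_ge_atTop 1] with N g1 g2 g3
  exact good_mono g3 hq.le g2 g1

end Pool.Agent.Results.MP_ecd12e_nt.AlmostAllImages
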