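import Mathlib
import Pool.Agent.V1181.DBf
set_option autoImplicit false

/-!
# Montgomery's large value conjecture: short random translations of separated blocks

Let `b_n`, `N ≤ n ≤ 2N`, be arbitrary coefficients of modulus at most one and let `J_1, …, J_m` be
disjoint sets of integers of `[N, 2N]` with at most `M ≥ 1` elements, such that different elements of
the same set have a distance at least `d`, for instance the residue classes modulo `d` (then one can
take `M = 1 + N / d`). We replace `b_n` by `b_n n^{i y_j}` for `n` in `J_j` (and by `0` outside of all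
blocks), where the `y_j` are independent random numbers with a common law `ρ` of size
`Y ≥ max (N / d, N^(1/4))`: the characteristic function of `ρ` at `θ` is at most `B / (1 + (Y θ)²)`. For
instance `ρ` is a Gaussian law of standard deviation `Y`, or the law of the sum of two independent
uniform random numbers of `[0, Y]`. So the part of the Dirichlet polynomial on `J_j` is translated by
`y_j`. With probability at least `1 - exp(-s)` the new polynomial `D_y` satisfies, with
`l = s + log(2N)`,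

`|D_y(t)| ≤ C (√(N l) + M l)` for all real `|t| ≤ N^A`.

So there are no large values for `M ≤ √N`. For the residue classes modulo `d`, `√N ≤ d ≤ N^(3/4)`, this
is achieved by translations of size `Y = N / d ≤ √N`, which is the order of the number of the elements
of the classes.

Proof: Bernstein's inequality; the variances are bounded by a mean value theorem for Dirichlet
polynomials with separated frequencies.
-/

namespace Pool.Agent.Results.MP_ecd12e_nt.ShortTranslations

open MeasureTheory Finset Complex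
open scoped ENNReal

/-- `D(t) = ∑_{N ≤ n ≤ 2N} b_n n^{it}` -/
noncomputable def D (N : ℕ) (b : ℕ → ℂ) (t : ℝ) : ℂ :=
  ∑ n ∈ Icc N (2 * N), b n * cexp (I * (t : ℂ) * (Real.log (n : ℝ) : ℂ))

open Classical in
/-- the coefficient `b_n n^{i y_j}` if `n` is in the block `J_j`, and `0` outside of the blocks (the
blocks are disjoint) -/
noncomputable def twist {m : ℕ} (J : Fin m → Finset ℕ) (b : ℕ → ℂ) (y : Fin m → ℝ) (n : ℕ) : ℂ :=
  ∑ j, if n ∈ J j then b n * cexp (I * (y j : ℂ) * (Real.log (n : ℝ) : ℂ)) else 0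

/-- disjoint sets of integers of `[N, 2N]` with at most `M` elements; different elements of the same
set have a distance at least `d` -/
def Blocks {m : ℕ} (N d : ℕ) (M : ℝ) (J : Fin m → Finset ℕ) : Prop :=
  (∀ j, J j ⊆ Icc N (2 * N)) ∧ (∀ i j, i ≠ j → Disjoint (J i) (J j)) ∧
    (∀ j, ∀ n ∈ J j, ∀ n' ∈ J j, n < n' → n + d ≤ n') ∧ ∀ j, ((J j).card : ℝ) ≤ M

/-- a probability measure whose characteristic function is at most `B / (1 + (Y θ)²)` -/
def Spread (B Y : ℝ) (ρ : Measure ℝ) : Prop :=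
  IsProbabilityMeasure ρ ∧
    ∀ θ : ℝ, ‖∫ v, cexp (I * (θ : ℂ) * (v : ℂ)) ∂ρ‖ ≤ B / (1 + (Y * θ) ^ 2)

theorem D_twist {m N d : ℕ} {M : ℝ} {J : Fin m → Finset ℕ} (hJ : Blocks N d M J) (b : ℕ → ℂ)
    (y : Fin m → ℝ) (t : ℝ) :
    D N (twist J b y) t = ∑ j, ∑ n ∈ J j, b n * Pool.Agent.V1181.DB.ph (t + y j) n := by
  classical
  unfold D twist
  simp only [Finset.sum_mul]
  rw [Finset.sum_comm]
  refine Finset.sum_congr rfl fun j _ => ?_
  have h1 : ∀ n, (if n ∈ J j then b n * cexp (I * (y j : ℂ) * (Real.log (n : ℝ) : ℂ)) else 0) *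
      cexp (I * (t : ℂ) * (Real.log (n : ℝ) : ℂ)) =
      if n ∈ J j then b n * Pool.Agent.V1181.DB.ph (t + y j) n else 0 := by
    intro n
    split_ifs
    · rw [Pool.Agent.V1181.DB.ph_add]
      unfold Pool.Agent.V1181.DB.ph
      ring
    · rw [zero_mul]
  simp only [h1]
  rw [Finset.sum_ite_mem, Finset.inter_eq_right.2 (hJ.1 j)]

/-- For all `A` and `B` there is a constant `C` such that for all `N`, `d`, `M ≥ 1`, all
`Y ≥ max (N / d, N^(1/4))`, all blocks, all laws and all coefficients bounded by one, and all `s ≥ 0`,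
the bound holds for the randomly twisted polynomial with probability at least `1 - exp(-s)`. -/
theorem result (A B : ℝ) : ∃ C : ℝ, 0 < C ∧
    ∀ (N d m : ℕ) (M Y : ℝ) (J : Fin m → Finset ℕ) (ρ : Measure ℝ) (b : ℕ → ℂ),
      1 ≤ N → 1 ≤ d → 1 ≤ M → (N : ℝ) / d ≤ Y → (N : ℝ) ^ (1 / 4 : ℝ) ≤ Y →
      Blocks N d M J → Spread B Y ρ → (∀ n, ‖b n‖ ≤ 1) → ∀ s : ℝ, 0 ≤ s →
        (Measure.pi fun _ => ρ) {y | ¬ ∀ t : ℝ, |t| ≤ (N : ℝ) ^ A →
          ‖D N (twist J b y) t‖ ≤
            C * (Real.sqrt (N * (s + Real.log (2 * N))) + M * (s + Real.log (2 * N)))} ≤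
          ENNReal.ofReal (Real.exp (-s)) := by
  obtain ⟨C, hC0, hC⟩ := Pool.Agent.V1181.DB.sup_bound2 (max A 0) (max B 1) (le_max_right _ _)
    (le_max_right _ _)
  refine ⟨C, hC0, ?_⟩
  intro N d m M Y J ρ b hN hd hM hY hY4 hJ hρ hb s hs
  obtain ⟨hρ1, hρ2⟩ := hρ
  have hN1 : (1 : ℝ) ≤ N := by exact_mod_cast hN
  have hρ2' : ∀ θ : ℝ, ‖∫ v, cexp (I * (θ : ℂ) * (v : ℂ)) ∂ρ‖ ≤ max B 1 / (1 + (Y * θ) ^ 2) := by
    intro θ
    refine (hρ2 θ).trans ?_
    exact div_le_div_of_nonneg_right (le_max_left _ _) (by positivity)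
  have h1 := hC N d hN hd Y hY hY4 ρ hρ2' m J hJ.1 hJ.2.1 hJ.2.2.1 M hM hJ.2.2.2 b hb s hs
  have hsub : {y : Fin m → ℝ | ¬ ∀ t : ℝ, |t| ≤ (N : ℝ) ^ A → ‖D N (twist J b y) t‖ ≤
      C * (Real.sqrt (N * (s + Real.log (2 * N))) + M * (s + Real.log (2 * N)))} ⊆
      {y : Fin m → ℝ | ∃ t : ℝ, |t| ≤ (N : ℝ) ^ (max A 0) ∧
        C * (Real.sqrt (N * (s + Real.log (2 * N))) + M * (s + Real.log (2 * N))) <
          ‖∑ j, ∑ n ∈ J j, b n * Pool.Agent.V1181.DB.ph (t + y j) n‖} := by
    intro y hy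
    rw [Set.mem_ofPred_eq] at hy ⊢
    push Not at hy
    obtain ⟨t, ht, hy⟩ := hy
    rw [D_twist hJ] at hy
    exact ⟨t, ht.trans (Real.rpow_le_rpow_of_exponent_le hN1 (le_max_left _ _)), hy⟩
  refine (measure_mono hsub).trans ?_
  rw [← ENNReal.ofReal_toReal (measure_ne_top (Measure.pi fun _ : Fin m => ρ)
    {y : Fin m → ℝ | ∃ t : ℝ, |t| ≤ (N : ℝ) ^ (max A 0) ∧
        C * (Real.sqrt (N * (s + Real.log (2 * N))) + M * (s + Real.log (2 * N))) <
          ‖∑ j, ∑ n ∈ J j, b n * Pool.Agent.V1181.DB.ph (t + y j) n‖})]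
  exact ENNReal.ofReal_le_ofReal h1

end Pool.Agent.Results.MP_ecd12e_nt.ShortTranslations
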